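import Mathlib

set_option autoImplicit false

/-!
# Project JG (row `MP_2a5a28_nt`): the triples `a + b + c = 0` over `ℤ[(1 + √5) / 2]` by their
radical: asymptotic number, joint limit law. The statements of the packages.
-/

namespace Pool.Agent.P8H82.JG

open NumberField IsDedekindDomain MeasureTheory Filter Topology

/-- `K = ℚ(√5)` with its two real embeddings `σ ≠ τ` -/
structure Gold (K : Type) [Field K] [NumberField K] (σ τ : K →+* ℝ) : Prop where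
  rank : Module.finrank ℚ K = 2
  five : ∃ s : K, s ^ 2 = 5
  ne : σ ≠ τ

variable {K : Type} [Field K] [NumberField K]

/-- the scaled real point of the pair `(a, b)` -/
noncomputable def emb (σ τ : K →+* ℝ) (l : ℝ) (a b : 𝓞 K) : ℝ × ℝ × ℝ × ℝ :=
  (σ a / l, τ a / l, σ b / l, τ b / l)

/-- the norm of a prime, as a real number -/
noncomputable def nP (P : HeightOneSpectrum (𝓞 K)) : ℝ := (Ideal.absNorm P.asIdeal : ℝ)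

/-- the exponent of `P` in the ideal `w` -/
noncomputable def ord (P : HeightOneSpectrum (𝓞 K)) (w : Ideal (𝓞 K)) : ℕ :=
  open Classical in (UniqueFactorizationMonoid.normalizedFactors w).count P.asIdeal

/-- the local condition at `P` for the pair `(a, b)`: it is coprime at `P` and
`max (v_P (a b (a + b)) - 1) 0 = e` -/
def Cnd (P : HeightOneSpectrum (𝓞 K)) (e : ℕ) (a b : 𝓞 K) : Prop :=
  ¬ (a ∈ P.asIdeal ∧ b ∈ P.asIdeal) ∧ a * b * (a + b) ∉ P.asIdeal ^ (e + 2) ∧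
    (e ≠ 0 → a * b * (a + b) ∈ P.asIdeal ^ (e + 1))

/-- the local density -/
noncomputable def dl (q : ℝ) (e : ℕ) : ℝ :=
  if e = 0 then 1 - 4 / q ^ 2 + 3 / q ^ 3 else 3 * (1 - 1 / q) ^ 2 / q ^ (e + 1)

/-- the constant `∏ (1 - 4 / q ^ 2 + 3 / q ^ 3)` -/
noncomputable def c0 (K : Type) [Field K] [NumberField K] : ℝ :=
  ∏' P : HeightOneSpectrum (𝓞 K), dl (nP P) 0

/-- the weight of the repeated part `w`; it is `0` for `w = ⊥` -/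
noncomputable def rho (w : Ideal (𝓞 K)) : ℝ :=
  (Ideal.absNorm w : ℝ) ^ (-(1 : ℝ) / 3) *
    ∏ᶠ (P : HeightOneSpectrum (𝓞 K)) (_ : w ≤ P.asIdeal),
      (3 * (nP P - 1) / (nP P ^ 2 + nP P - 3))

/-- the squarefree kernel of `x`: the product of the prime ideals containing `x` -/
noncomputable def radI (x : 𝓞 K) : Ideal (𝓞 K) :=
  ∏ᶠ (P : HeightOneSpectrum (𝓞 K)) (_ : x ∈ P.asIdeal), P.asIdeal

/-- the density -/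
noncomputable def dens (x : ℝ) : ℝ := |x * (x + 1)| ^ (-(2 : ℝ) / 3)

/-- the local height function: `max (|a|, |b|, |a + b|) ^ 3 / |a b (a + b)|` for `x = a / b` -/
noncomputable def hh (x : ℝ) : ℝ := max 1 (max |x| |x + 1|) ^ 3 / |x * (x + 1)|

/-- the compact part of the line of shapes -/
def KK (R : ℝ) : Set ℝ := {x | 1 / R < |x| ∧ 1 / R < |x + 1| ∧ |x| < R}

/-- the region of the pairs: `p = (a₁, a₂, b₁, b₂)`, `(b₁, b₂)` in the fundamental cone for the units,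
shapes `(a₁ / b₁, a₂ / b₂)` in `Q`, norm of `a b (a + b)` at most `1` -/
def Reg (Q : Set (ℝ × ℝ)) : Set (ℝ × ℝ × ℝ × ℝ) :=
  {p | p.2.2.2 ≠ 0 ∧ |p.2.2.2| ≤ |p.2.2.1| ∧ |p.2.2.1| < (3 + √5) / 2 * |p.2.2.2| ∧
    (p.1 / p.2.2.1, p.2.1 / p.2.2.2) ∈ Q ∧
    |p.1 * p.2.2.1 * (p.1 + p.2.2.1)| * |p.2.1 * p.2.2.2 * (p.2.1 + p.2.2.2)| ≤ 1}

/-- triples in lowest terms with `a + b + c = 0` and `a b c ≠ 0` (as in `AlmostAllTriples`) -/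
structure Triple (t : 𝓞 K × 𝓞 K × 𝓞 K) : Prop where
  sum : t.1 + t.2.1 + t.2.2 = 0
  ne : t.1 * t.2.1 * t.2.2 ≠ 0
  cop : Ideal.span {t.1, t.2.1, t.2.2} = (⊤ : Ideal (𝓞 K))

/-- the height -/
noncomputable def height (t : 𝓞 K × 𝓞 K × 𝓞 K) : ℝ :=
  ∏ φ : K →+* ℂ, max ‖φ t.1‖ (max ‖φ t.2.1‖ ‖φ t.2.2‖)

/-- the radical -/
noncomputable def rad (t : 𝓞 K × 𝓞 K × 𝓞 K) : ℝ :=
  ∏ᶠ (P : HeightOneSpectrum (𝓞 K)) (_ : t.1 * t.2.1 * t.2.2 ∈ P.asIdeal),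
    (Ideal.absNorm P.asIdeal : ℝ)

/-- `E` is a full set of representatives, up to units, of the triples with `rad ≤ X` -/
structure Reps (X : ℝ) (E : Finset (𝓞 K × 𝓞 K × 𝓞 K)) : Prop where
  mem : ∀ t ∈ E, Triple t ∧ rad t ≤ X
  ineq : ∀ t ∈ E, ∀ s ∈ E, ∀ u : (𝓞 K)ˣ, s = (u * t.1, u * t.2.1, u * t.2.2) → s = t
  full : ∀ t, Triple t → rad t ≤ X → ∃ s ∈ E, ∃ u : (𝓞 K)ˣ,
    t = (u * s.1, u * s.2.1, u * s.2.2)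

/-- the ideal `w` is the repeated part of the triple: `(a b c) = w ∏_{P ∣ a b c} P` -/
def Rep (w : Ideal (𝓞 K)) (t : 𝓞 K × 𝓞 K × 𝓞 K) : Prop :=
  w * radI (t.1 * t.2.1 * t.2.2) = Ideal.span {t.1 * t.2.1 * t.2.2}

/-- the two real shapes `a / b` of the triple -/
noncomputable def shp (σ τ : K →+* ℝ) (t : 𝓞 K × 𝓞 K × 𝓞 K) : ℝ × ℝ :=
  (σ t.1 / σ t.2.1, τ t.1 / τ t.2.1)

/-- `D` is Jordan measurable -/
def Jor {E : Type} [MeasurableSpace E] [TopologicalSpace E] [Bornology E] (μ : Measure E)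
    (D : Set E) : Prop :=
  Bornology.IsBounded D ∧ MeasurableSet D ∧ μ (frontier D) = 0

/-! ## The packages -/

/-- EQ: lattice points in a coset of `m ℤ ^ d`, real scaling -/
def S_EQ : Prop := ∀ (d : ℕ) (D : Set (Fin d → ℝ)), Jor volume D → ∀ (m : ℕ), 0 < m →
  ∀ v : Fin d → ℤ, Tendsto (fun l : ℝ =>
    (({z : Fin d → ℤ | (∃ y : Fin d → ℤ, ∀ i, z i = v i + m * y i) ∧
      (fun i => (z i : ℝ) / l) ∈ D}.ncard : ℕ) : ℝ) / l ^ d) atTop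
    (𝓝 ((volume D).toReal / (m : ℝ) ^ d))

/-- EXI: the two real embeddings exist -/
def S_EXI : Prop := ∀ (K : Type) [Field K] [NumberField K], Module.finrank ℚ K = 2 →
  (∃ s : K, s ^ 2 = 5) → ∃ σ τ : K →+* ℝ, σ ≠ τ

/-- INT: the ring of integers is `ℤ[φ]` -/
def S_INT : Prop := ∀ (K : Type) [Field K] [NumberField K] (σ τ : K →+* ℝ), Gold K σ τ →
  ∃ φ : 𝓞 K, φ ^ 2 = φ + 1 ∧ σ φ = (1 + √5) / 2 ∧ τ φ = (1 - √5) / 2 ∧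
    (∀ a : 𝓞 K, ∃ m n : ℤ, a = m + n * φ) ∧
    ∀ m n m' n' : ℤ, (m : 𝓞 K) + n * φ = m' + n' * φ → m = m' ∧ n = n'

/-- NRM: norms -/
def S_NRM : Prop := ∀ (K : Type) [Field K] [NumberField K] (σ τ : K →+* ℝ), Gold K σ τ →
  ∀ a : 𝓞 K, (Ideal.absNorm (Ideal.span {a}) : ℝ) = |σ a * τ a|

/-- CPX: the complex embeddings -/
def S_CPX : Prop := ∀ (K : Type) [Field K] [NumberField K] (σ τ : K →+* ℝ), Gold K σ τ →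
  ∀ F : (K →+* ℂ) → ℝ, ∏ φ : K →+* ℂ, F φ =
    F (Complex.ofRealHom.comp σ) * F (Complex.ofRealHom.comp τ)

/-- CONE: the units and the cone -/
def S_CONE : Prop := ∀ (K : Type) [Field K] [NumberField K] (σ τ : K →+* ℝ), Gold K σ τ →
  (∀ b : 𝓞 K, b ≠ 0 → ∃ u : (𝓞 K)ˣ, |τ ((u * b : 𝓞 K) : K)| ≤ |σ ((u * b : 𝓞 K) : K)| ∧
    |σ ((u * b : 𝓞 K) : K)| < (3 + √5) / 2 * |τ ((u * b : 𝓞 K) : K)|) ∧
  (∀ (b : 𝓞 K) (u : (𝓞 K)ˣ), b ≠ 0 → |τ b| ≤ |σ b| → |σ b| < (3 + √5) / 2 * |τ b| →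
    |τ ((u * b : 𝓞 K) : K)| ≤ |σ ((u * b : 𝓞 K) : K)| →
    |σ ((u * b : 𝓞 K) : K)| < (3 + √5) / 2 * |τ ((u * b : 𝓞 K) : K)| → u = 1 ∨ u = -1)

/-- LP: pairs of integers in a coset of `𝔪 × 𝔪` (from EQ, INT) -/
def S_LP : Prop := ∀ (K : Type) [Field K] [NumberField K] (σ τ : K →+* ℝ), Gold K σ τ →
  ∀ 𝔪 : Ideal (𝓞 K), 𝔪 ≠ ⊥ → ∀ α β : 𝓞 K, ∀ D : Set (ℝ × ℝ × ℝ × ℝ), Jor volume D →
  Tendsto (fun l : ℝ => (({q : 𝓞 K × 𝓞 K | q.1 - α ∈ 𝔪 ∧ q.2 - β ∈ 𝔪 ∧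
    emb σ τ l q.1 q.2 ∈ D}.ncard : ℕ) : ℝ) / l ^ 4) atTop
    (𝓝 ((volume D).toReal / (5 * (Ideal.absNorm 𝔪 : ℝ) ^ 2)))

/-- LOC: the number of pairs of residue classes with the local condition -/
def S_LOC : Prop := ∀ (K : Type) [Field K] [NumberField K] (P : HeightOneSpectrum (𝓞 K)) (e : ℕ),
  (({x : (𝓞 K ⧸ P.asIdeal ^ (e + 2)) × (𝓞 K ⧸ P.asIdeal ^ (e + 2)) | ∃ a b : 𝓞 K,
    x = (Ideal.Quotient.mk _ a, Ideal.Quotient.mk _ b) ∧ Cnd P e a b}.ncard : ℕ) : ℝ) =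
    dl (nP P) e * (nP P ^ (e + 2)) ^ 2

/-- ASZ: the local conditions at finitely many primes (from LP, LOC) -/
def S_ASZ : Prop := ∀ (K : Type) [Field K] [NumberField K] (σ τ : K →+* ℝ), Gold K σ τ →
  ∀ (ν : HeightOneSpectrum (𝓞 K) → ℕ) (Z : Finset (HeightOneSpectrum (𝓞 K)))
    (D : Set (ℝ × ℝ × ℝ × ℝ)), Jor volume D →
  Tendsto (fun l : ℝ => (({q : 𝓞 K × 𝓞 K | (∀ P ∈ Z, Cnd P (ν P) q.1 q.2) ∧
    emb σ τ l q.1 q.2 ∈ D}.ncard : ℕ) : ℝ) / l ^ 4) atTop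
    (𝓝 ((volume D).toReal / 5 * ∏ P ∈ Z, dl (nP P) (ν P)))

/-- BOX: nonzero elements of an ideal in a box -/
def S_BOX : Prop := ∀ (K : Type) [Field K] [NumberField K] (σ τ : K →+* ℝ), Gold K σ τ →
  ∀ (𝔫 : Ideal (𝓞 K)) (B : ℝ), 𝔫 ≠ ⊥ → 0 < B →
  {x : 𝓞 K | x ∈ 𝔫 ∧ x ≠ 0 ∧ |σ x| ≤ B ∧ |τ x| ≤ B}.Finite ∧
  (({x : 𝓞 K | x ∈ 𝔫 ∧ x ≠ 0 ∧ |σ x| ≤ B ∧ |τ x| ≤ B}.ncard : ℕ) : ℝ) ≤
    16 * B ^ 2 / (Ideal.absNorm 𝔫 : ℝ)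

/-- TL: the tail of the sieve (from BOX) -/
def S_TL : Prop := ∀ (K : Type) [Field K] [NumberField K] (σ τ : K →+* ℝ), Gold K σ τ →
  ∀ R : ℝ, 1 ≤ R → ∃ C : ℝ, 0 < C ∧ ∀ Z : Finset (HeightOneSpectrum (𝓞 K)), ∀ l : ℝ, 1 ≤ l →
  {q : 𝓞 K × 𝓞 K | q.1 * q.2 * (q.1 + q.2) ≠ 0 ∧ |σ q.1| ≤ R * l ∧ |τ q.1| ≤ R * l ∧
    |σ q.2| ≤ R * l ∧ |τ q.2| ≤ R * l ∧ ∃ P, P ∉ Z ∧ ¬ Cnd P 0 q.1 q.2}.Finite ∧
  (({q : 𝓞 K × 𝓞 K | q.1 * q.2 * (q.1 + q.2) ≠ 0 ∧ |σ q.1| ≤ R * l ∧ |τ q.1| ≤ R * l ∧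
    |σ q.2| ≤ R * l ∧ |τ q.2| ≤ R * l ∧ ∃ P, P ∉ Z ∧ ¬ Cnd P 0 q.1 q.2}.ncard : ℕ) : ℝ) ≤
    C * l ^ 4 * ∑' P : {P : HeightOneSpectrum (𝓞 K) // P ∉ Z}, 1 / nP P.1 ^ 2

/-- SM: the sum over the primes -/
def S_SM : Prop := ∀ (K : Type) [Field K] [NumberField K],
  Summable fun P : HeightOneSpectrum (𝓞 K) => 1 / nP P ^ 2

/-- C0: the infinite products (from SM) -/
def S_C0 : Prop := ∀ (K : Type) [Field K] [NumberField K],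
  0 < c0 K ∧ HasProd (fun P : HeightOneSpectrum (𝓞 K) => dl (nP P) 0) (c0 K) ∧
  ∀ w : Ideal (𝓞 K), w ≠ ⊥ → HasProd (fun P : HeightOneSpectrum (𝓞 K) => dl (nP P) (ord P w))
    (c0 K * ((Ideal.absNorm w : ℝ) ^ (-(2 : ℝ) / 3) * rho w))

/-- ASY: all local conditions (from ASZ, TL, SM, C0) -/
def S_ASY : Prop := ∀ (K : Type) [Field K] [NumberField K] (σ τ : K →+* ℝ), Gold K σ τ →
  ∀ (w : Ideal (𝓞 K)) (D : Set (ℝ × ℝ × ℝ × ℝ)), w ≠ ⊥ → Jor volume D →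
  Tendsto (fun l : ℝ => (({q : 𝓞 K × 𝓞 K | q.1 * q.2 * (q.1 + q.2) ≠ 0 ∧
    (∀ P, Cnd P (ord P w) q.1 q.2) ∧ emb σ τ l q.1 q.2 ∈ D}.ncard : ℕ) : ℝ) / l ^ 4) atTop
    (𝓝 ((volume D).toReal / 5 * (c0 K * ((Ideal.absNorm w : ℝ) ^ (-(2 : ℝ) / 3) * rho w))))

/-- REG: the region is Jordan measurable -/
def S_REG : Prop := ∀ (R : ℝ) (Q : Set (ℝ × ℝ)), 1 ≤ R → MeasurableSet Q →
  volume (frontier Q) = 0 → Q ⊆ KK R ×ˢ KK R → Jor volume (Reg Q)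

/-- VOL: the volume of the region -/
def S_VOL : Prop := ∀ (R : ℝ) (Q : Set (ℝ × ℝ)), 1 ≤ R → MeasurableSet Q →
  Q ⊆ KK R ×ˢ KK R → (volume (Reg Q)).toReal =
    2 * Real.log ((1 + √5) / 2) * ∫ x in Q, dens x.1 * dens x.2

/-- REPC: the local conditions and the repeated part -/
def S_REPC : Prop := ∀ (K : Type) [Field K] [NumberField K] (a b : 𝓞 K) (w : Ideal (𝓞 K)),
  w ≠ ⊥ → a * b * (a + b) ≠ 0 →
  ((∀ P, Cnd P (ord P w) a b) ↔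
    (Ideal.span {a, b} = ⊤ ∧ w * radI (a * b * (a + b)) = Ideal.span {a * b * (a + b)}))

/-- RAD: the norm of the kernel, existence and uniqueness of the repeated part -/
def S_RAD : Prop := ∀ (K : Type) [Field K] [NumberField K] (t : 𝓞 K × 𝓞 K × 𝓞 K), Triple t →
  (Ideal.absNorm (radI (t.1 * t.2.1 * t.2.2)) : ℝ) = rad t ∧ 1 ≤ rad t ∧
  (∃ w : Ideal (𝓞 K), w ≠ ⊥ ∧ Rep w t) ∧
  (∀ w w' : Ideal (𝓞 K), Rep w t → Rep w' t → w = w') ∧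
  ∀ w : Ideal (𝓞 K), Rep w t → w ≠ ⊥ ∧
    (Ideal.absNorm w : ℝ) * rad t = (Ideal.absNorm (Ideal.span {t.1 * t.2.1 * t.2.2}) : ℝ)

/-- PTS: from triples to pairs (from NRM, CONE, REPC, RAD) -/
def S_PTS : Prop := ∀ (K : Type) [Field K] [NumberField K] (σ τ : K →+* ℝ), Gold K σ τ →
  ∀ (X : ℝ) (E : Finset (𝓞 K × 𝓞 K × 𝓞 K)) (w : Ideal (𝓞 K)) (Q : Set (ℝ × ℝ)),
  1 ≤ X → Reps X E → w ≠ ⊥ →
  2 * (({t : 𝓞 K × 𝓞 K × 𝓞 K | t ∈ E ∧ Rep w t ∧ shp σ τ t ∈ Q}.ncard : ℕ) : ℝ) =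
    (({q : 𝓞 K × 𝓞 K | q.1 * q.2 * (q.1 + q.2) ≠ 0 ∧ (∀ P, Cnd P (ord P w) q.1 q.2) ∧
      emb σ τ (((Ideal.absNorm w : ℝ) * X) ^ ((1 : ℝ) / 6)) q.1 q.2 ∈ Reg Q}.ncard : ℕ) : ℝ)

/-- HT: the height of a triple (from NRM, CPX, RAD) -/
def S_HT : Prop := ∀ (K : Type) [Field K] [NumberField K] (σ τ : K →+* ℝ), Gold K σ τ →
  ∀ (t : 𝓞 K × 𝓞 K × 𝓞 K) (w : Ideal (𝓞 K)), Triple t → Rep w t →
  height t ^ 3 = (Ideal.absNorm w : ℝ) * hh (shp σ τ t).1 * hh (shp σ τ t).2 * rad t ∧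
  ∀ R : ℝ, 1 ≤ R → (R ≤ (Ideal.absNorm w : ℝ) ∨ shp σ τ t ∉ KK R ×ˢ KK R) →
    R / 2 * rad t ≤ height t ^ 3

/-- BETA: the integral of the density -/
def S_BETA : Prop := Integrable dens ∧
  ∫ x, dens x = 3 * Real.Gamma (1 / 3) ^ 2 / Real.Gamma (2 / 3)

/-- LVL: the level sets of the height -/
def S_LVL : Prop := ∀ s : ℝ, MeasurableSet {x : ℝ × ℝ | hh x.1 * hh x.2 ≤ s} ∧
  volume (frontier {x : ℝ × ℝ | hh x.1 * hh x.2 ≤ s}) = 0 ∧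
  0 < ∫ x in {x : ℝ × ℝ | s < hh x.1 * hh x.2}, dens x.1 * dens x.2

/-- KKJ: the compact part has a null frontier and exhausts the plane -/
def S_KKJ : Prop := (∀ R : ℝ, 1 ≤ R → MeasurableSet (KK R ×ˢ KK R) ∧
    volume (frontier (KK R ×ˢ KK R)) = 0) ∧
  ∀ Q : Set (ℝ × ℝ), MeasurableSet Q → Integrable dens →
    Tendsto (fun n : ℕ => ∫ x in Q ∩ (KK n ×ˢ KK n), dens x.1 * dens x.2) atTop
      (𝓝 (∫ x in Q, dens x.1 * dens x.2))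

/-- EUL: the Euler product (from SM, C0) -/
def S_EUL : Prop := ∀ (K : Type) [Field K] [NumberField K],
  Summable (fun w : Ideal (𝓞 K) => rho w) →
  HasProd (fun P : HeightOneSpectrum (𝓞 K) => (1 - 1 / nP P) * (1 + 1 / nP P +
    3 * nP P ^ (-(4 : ℝ) / 3) + 3 * nP P ^ (-(5 : ℝ) / 3))) (c0 K * ∑' w : Ideal (𝓞 K), rho w)

end Pool.Agent.P8H82.JG
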