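import Mathlib
import Pool.Agent.P8H82.JG.Stm

set_option autoImplicit false

/-!
# Project JG: the assembly
-/

namespace Pool.Agent.P8H82.JG

open NumberField IsDedekindDomain MeasureTheory Filter Topology

/-- the input from the sharp count -/
def S_SC : Prop := ∀ (K : Type) [Field K] [NumberField K], Module.finrank ℚ K = 2 →
  (∃ s : K, s ^ 2 = 5) →
  (∀ X : ℝ, 1 ≤ X → ∃ E : Finset (𝓞 K × 𝓞 K × 𝓞 K), Reps X E) ∧
  (∃ C X₀ : ℝ, ∀ X : ℝ, X₀ ≤ X → ∀ E : Finset (𝓞 K × 𝓞 K × 𝓞 K), Reps X E →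
    (E.card : ℝ) ≤ C * X ^ (2 / 3 : ℝ)) ∧
  ∃ C ν : ℝ, 0 < ν ∧ ∀ X t : ℝ, 1 ≤ X → 1 ≤ t →
    ∀ E : Finset (𝓞 K × 𝓞 K × 𝓞 K), Reps X E →
      (({s : 𝓞 K × 𝓞 K × 𝓞 K | s ∈ E ∧ t * rad s ≤ height s ^ 3}.ncard : ℕ) : ℝ) ≤
        C * (t ^ (-(1 / 4 : ℝ)) + X ^ (-ν)) * X ^ (2 / 3 : ℝ)

variable {K : Type} [Field K] [NumberField K]

/-- the constant `log ε / 5` -/
noncomputable def lam : ℝ := Real.log ((1 + √5) / 2) / 5

theorem lam_pos : 0 < lam := by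
  unfold lam
  have h : (1 : ℝ) < √5 := by
    rw [Real.lt_sqrt (by norm_num)]
    norm_num
  have := Real.log_pos (x := (1 + √5) / 2) (by linarith)
  positivity

/-- Step A: one repeated part, compact set of shapes -/
theorem stepA (hASY : S_ASY) (hREG : S_REG) (hVOL : S_VOL) (hPTS : S_PTS)
    {σ τ : K →+* ℝ} (hG : Gold K σ τ) {E : ℝ → Finset (𝓞 K × 𝓞 K × 𝓞 K)}
    (hE : ∀ X : ℝ, 1 ≤ X → Reps X (E X)) {w : Ideal (𝓞 K)} (hw : w ≠ ⊥) {R : ℝ} (hR : 1 ≤ R)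
    {Q : Set (ℝ × ℝ)} (hQm : MeasurableSet Q) (hQf : volume (frontier Q) = 0)
    (hQ : Q ⊆ KK R ×ˢ KK R) :
    Tendsto (fun X : ℝ => (({t : 𝓞 K × 𝓞 K × 𝓞 K | t ∈ E X ∧ Rep w t ∧ shp σ τ t ∈ Q}.ncard : ℕ) : ℝ) /
      X ^ ((2 : ℝ) / 3)) atTop (𝓝 (lam * c0 K * (rho w * ∫ x in Q, dens x.1 * dens x.2))) := by
  have hJ := hREG R Q hR hQm hQf hQ
  have h1 := hASY K σ τ hG w (Reg Q) hw hJ
  have hN : (0 : ℝ) < Ideal.absNorm w := by
    have : Ideal.absNorm w ≠ 0 := fun h => hw (Ideal.absNorm_eq_zero_iff.1 h)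
    exact_mod_cast Nat.pos_of_ne_zero this
  have hl : Tendsto (fun X : ℝ => ((Ideal.absNorm w : ℝ) * X) ^ ((1 : ℝ) / 6)) atTop atTop :=
    (tendsto_rpow_atTop (by norm_num)).comp (tendsto_id.const_mul_atTop hN)
  have h2 := h1.comp hl
  rw [hVOL R Q hR hQm hQ] at h2
  have h3 := h2.const_mul ((Ideal.absNorm w : ℝ) ^ ((2 : ℝ) / 3) / 2)
  have e1 : (Ideal.absNorm w : ℝ) ^ ((2 : ℝ) / 3) / 2 *
      (2 * Real.log ((1 + √5) / 2) * (∫ x in Q, dens x.1 * dens x.2) / 5 *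
        (c0 K * ((Ideal.absNorm w : ℝ) ^ (-(2 : ℝ) / 3) * rho w))) =
      lam * c0 K * (rho w * ∫ x in Q, dens x.1 * dens x.2) := by
    have e2 : (Ideal.absNorm w : ℝ) ^ ((2 : ℝ) / 3) * (Ideal.absNorm w : ℝ) ^ (-(2 : ℝ) / 3) = 1 := by
      rw [← Real.rpow_add hN]
      norm_num
    unfold lam
    linear_combination (Real.log ((1 + √5) / 2) * (∫ x in Q, dens x.1 * dens x.2) / 5 *
      c0 K * rho w) * e2
  rw [e1] at h3
  refine h3.congr' ?_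
  filter_upwards [eventually_ge_atTop (1 : ℝ)] with X hX
  have hX0 : 0 < X := by linarith
  have h4 := hPTS K σ τ hG X (E X) w Q hX (hE X hX) hw
  simp only [Function.comp_apply]
  rw [← h4]
  have e3 : (((Ideal.absNorm w : ℝ) * X) ^ ((1 : ℝ) / 6)) ^ 4 =
      (Ideal.absNorm w : ℝ) ^ ((2 : ℝ) / 3) * X ^ ((2 : ℝ) / 3) := by
    rw [← Real.rpow_natCast, ← Real.rpow_mul (by positivity), Real.mul_rpow hN.le hX0.le]
    norm_num
  rw [e3]
  have p1 : (Ideal.absNorm w : ℝ) ^ ((2 : ℝ) / 3) ≠ 0 := (Real.rpow_pos_of_pos hN _).ne'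
  have p2 : X ^ ((2 : ℝ) / 3) ≠ 0 := (Real.rpow_pos_of_pos hX0 _).ne'
  field_simp

/-- nonnegativity of the density -/
theorem dens_nonneg (x : ℝ) : 0 ≤ dens x := Real.rpow_nonneg (abs_nonneg _) _

theorem one_lt_nP (P : HeightOneSpectrum (𝓞 K)) : 1 < nP P := by
  unfold nP
  have h0 : Ideal.absNorm P.asIdeal ≠ 0 := fun h => P.ne_bot (Ideal.absNorm_eq_zero_iff.1 h)
  have h1 : Ideal.absNorm P.asIdeal ≠ 1 := fun h => P.isPrime.ne_top (Ideal.absNorm_eq_one_iff.1 h)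
  have : 1 < Ideal.absNorm P.asIdeal := by omega
  exact_mod_cast this

theorem two_le_nP (P : HeightOneSpectrum (𝓞 K)) : 2 ≤ nP P := by
  have h := one_lt_nP P
  unfold nP at h ⊢
  have h1 : 1 < Ideal.absNorm P.asIdeal := by exact_mod_cast h
  have h2 : 2 ≤ Ideal.absNorm P.asIdeal := h1
  exact_mod_cast h2

theorem rho_nonneg (w : Ideal (𝓞 K)) : 0 ≤ rho w := by
  unfold rho
  refine mul_nonneg (Real.rpow_nonneg (Nat.cast_nonneg _) _) ?_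
  refine finprod_nonneg fun P => finprod_nonneg fun _ => ?_
  have h := two_le_nP P
  refine div_nonneg (by linarith) ?_
  nlinarith

theorem rho_bot : rho (⊥ : Ideal (𝓞 K)) = 0 := by
  unfold rho
  rw [Ideal.absNorm_bot, Nat.cast_zero, Real.zero_rpow (by norm_num), zero_mul]


theorem FF_fin (K : Type) [Field K] [NumberField K] (n : ℕ) :
    {w : Ideal (𝓞 K) | w ≠ ⊥ ∧ Ideal.absNorm w < n}.Finite :=
  (Ideal.finite_setOfPred_absNorm_le (S := 𝓞 K) n).subset fun _ hw => hw.2.le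

/-- the nonzero ideals of norm below `n` -/
noncomputable def FF (K : Type) [Field K] [NumberField K] (n : ℕ) : Finset (Ideal (𝓞 K)) :=
  (FF_fin K n).toFinset

theorem mem_FF {n : ℕ} {w : Ideal (𝓞 K)} : w ∈ FF K n ↔ w ≠ ⊥ ∧ Ideal.absNorm w < n := by
  unfold FF
  rw [Set.Finite.mem_toFinset]
  rfl

theorem fin_sub {E : Finset (𝓞 K × 𝓞 K × 𝓞 K)} (p : 𝓞 K × 𝓞 K × 𝓞 K → Prop) :
    {t | t ∈ E ∧ p t}.Finite := E.finite_toSet.subset fun _ h => h.1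

open Classical in
/-- the splitting of the count -/
theorem split_count (hRAD : S_RAD) (hHT : S_HT) {σ τ : K →+* ℝ} (hG : Gold K σ τ) {X : ℝ}
    {E : Finset (𝓞 K × 𝓞 K × 𝓞 K)} (hE : Reps X E) (Q : Ideal (𝓞 K) → Set (ℝ × ℝ)) {n : ℕ}
    (hn : 1 ≤ n) :
    (∑ w ∈ FF K n, {t : 𝓞 K × 𝓞 K × 𝓞 K | t ∈ E ∧ Rep w t ∧
        shp σ τ t ∈ Q w ∩ (KK n ×ˢ KK n)}.ncard) ≤
      {t : 𝓞 K × 𝓞 K × 𝓞 K | t ∈ E ∧ ∃ w, Rep w t ∧ shp σ τ t ∈ Q w}.ncard ∧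
    {t : 𝓞 K × 𝓞 K × 𝓞 K | t ∈ E ∧ ∃ w, Rep w t ∧ shp σ τ t ∈ Q w}.ncard ≤
      (∑ w ∈ FF K n, {t : 𝓞 K × 𝓞 K × 𝓞 K | t ∈ E ∧ Rep w t ∧
        shp σ τ t ∈ Q w ∩ (KK n ×ˢ KK n)}.ncard) +
      {t : 𝓞 K × 𝓞 K × 𝓞 K | t ∈ E ∧ (n : ℝ) / 2 * rad t ≤ height t ^ 3}.ncard := by
  have e1 : (∑ w ∈ FF K n, {t : 𝓞 K × 𝓞 K × 𝓞 K | t ∈ E ∧ Rep w t ∧
        shp σ τ t ∈ Q w ∩ (KK n ×ˢ KK n)}.ncard) =
      ((FF K n).biUnion fun w => E.filter fun t => Rep w t ∧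
        shp σ τ t ∈ Q w ∩ (KK n ×ˢ KK n)).card := by
    rw [Finset.card_biUnion]
    · refine Finset.sum_congr rfl fun w _ => ?_
      rw [← Set.ncard_coe_finset]
      congr 1
      ext t
      rw [Set.mem_ofPred_eq, Finset.mem_coe, Finset.mem_filter]
    · intro w _ w' _ hne
      rw [Function.onFun, Finset.disjoint_left]
      intro t h1 h2
      rw [Finset.mem_filter] at h1 h2
      exact hne ((hRAD K t (hE.mem t h1.1).1).2.2.2.1 w w' h1.2.1 h2.2.1)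
  have e2 : {t : 𝓞 K × 𝓞 K × 𝓞 K | t ∈ E ∧ ∃ w, Rep w t ∧ shp σ τ t ∈ Q w}.ncard =
      (E.filter fun t => ∃ w, Rep w t ∧ shp σ τ t ∈ Q w).card := by
    rw [← Set.ncard_coe_finset]
    congr 1
    ext t
    rw [Set.mem_ofPred_eq, Finset.mem_coe, Finset.mem_filter]
  have e3 : {t : 𝓞 K × 𝓞 K × 𝓞 K | t ∈ E ∧ (n : ℝ) / 2 * rad t ≤ height t ^ 3}.ncard =
      (E.filter fun t => (n : ℝ) / 2 * rad t ≤ height t ^ 3).card := by
    rw [← Set.ncard_coe_finset]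
    congr 1
    ext t
    rw [Set.mem_ofPred_eq, Finset.mem_coe, Finset.mem_filter]
  rw [e1, e2, e3]
  constructor
  · refine Finset.card_le_card fun t ht => ?_
    rw [Finset.mem_biUnion] at ht
    obtain ⟨w, _, h⟩ := ht
    rw [Finset.mem_filter] at h ⊢
    exact ⟨h.1, w, h.2.1, h.2.2.1⟩
  · refine le_trans (Finset.card_le_card fun t ht => ?_) (Finset.card_union_le _ _)
    rw [Finset.mem_filter] at ht
    obtain ⟨htE, w, hw, hq⟩ := ht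
    have hT := (hE.mem t htE).1
    have hn1 : (1 : ℝ) ≤ n := by exact_mod_cast hn
    rw [Finset.mem_union, Finset.mem_biUnion]
    by_cases h1 : (n : ℝ) ≤ (Ideal.absNorm w : ℝ)
    · right
      rw [Finset.mem_filter]
      exact ⟨htE, (hHT K σ τ hG t w hT hw).2 n hn1 (Or.inl h1)⟩
    by_cases h2 : shp σ τ t ∈ KK n ×ˢ KK n
    · left
      refine ⟨w, mem_FF.2 ⟨((hRAD K t hT).2.2.2.2 w hw).1, ?_⟩, ?_⟩
      · push Not at h1
        exact_mod_cast h1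
      · rw [Finset.mem_filter]
        exact ⟨htE, hw, hq, h2⟩
    · right
      rw [Finset.mem_filter]
      exact ⟨htE, (hHT K σ τ hG t w hT hw).2 n hn1 (Or.inr h2)⟩

/-- the mass of the set of shapes -/
noncomputable def mass (Q : Set (ℝ × ℝ)) : ℝ := ∫ x in Q, dens x.1 * dens x.2

theorem mass_nonneg (Q : Set (ℝ × ℝ)) : 0 ≤ mass Q :=
  integral_nonneg fun x => mul_nonneg (dens_nonneg _) (dens_nonneg _)

theorem dens2_int (hB : S_BETA) : Integrable (fun x : ℝ × ℝ => dens x.1 * dens x.2) :=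
  hB.1.mul_prod hB.1

theorem mass_mono (hB : S_BETA) {Q Q' : Set (ℝ × ℝ)} (h : Q ⊆ Q') : mass Q ≤ mass Q' := by
  unfold mass
  refine setIntegral_mono_set (dens2_int hB).integrableOn ?_ (LE.le.eventuallyLE h)
  exact Eventually.of_forall fun x => mul_nonneg (dens_nonneg _) (dens_nonneg _)

theorem mass_univ (hB : S_BETA) :
    mass Set.univ = (3 * Real.Gamma (1 / 3) ^ 2 / Real.Gamma (2 / 3)) ^ 2 := by
  unfold mass
  rw [Measure.restrict_univ]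
  have h := integral_prod_mul (μ := (volume : Measure ℝ)) (ν := (volume : Measure ℝ)) dens dens
  rw [hB.2] at h
  rw [sq, ← h]
  rfl


/-- Step B: finitely many repeated parts, compact sets of shapes -/
theorem stepB (hASY : S_ASY) (hREG : S_REG) (hVOL : S_VOL) (hPTS : S_PTS) (hKKJ : S_KKJ)
    {σ τ : K →+* ℝ} (hG : Gold K σ τ) {E : ℝ → Finset (𝓞 K × 𝓞 K × 𝓞 K)}
    (hE : ∀ X : ℝ, 1 ≤ X → Reps X (E X)) {Q : Ideal (𝓞 K) → Set (ℝ × ℝ)}
    (hQ : ∀ w, MeasurableSet (Q w) ∧ volume (frontier (Q w)) = 0) {n : ℕ} (hn : 1 ≤ n)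
    (F : Finset (Ideal (𝓞 K))) (hF : ∀ w ∈ F, w ≠ ⊥) :
    Tendsto (fun X : ℝ => ((∑ w ∈ F, {t : 𝓞 K × 𝓞 K × 𝓞 K | t ∈ E X ∧ Rep w t ∧
        shp σ τ t ∈ Q w ∩ (KK n ×ˢ KK n)}.ncard : ℕ) : ℝ) / X ^ ((2 : ℝ) / 3)) atTop
      (𝓝 (lam * c0 K * ∑ w ∈ F, rho w * mass (Q w ∩ (KK n ×ˢ KK n)))) := by
  have hn1 : (1 : ℝ) ≤ n := by exact_mod_cast hn
  have h : ∀ w ∈ F, Tendsto (fun X : ℝ => (({t : 𝓞 K × 𝓞 K × 𝓞 K | t ∈ E X ∧ Rep w t ∧
        shp σ τ t ∈ Q w ∩ (KK n ×ˢ KK n)}.ncard : ℕ) : ℝ) / X ^ ((2 : ℝ) / 3)) atTop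
      (𝓝 (lam * c0 K * (rho w * mass (Q w ∩ (KK n ×ˢ KK n))))) := by
    intro w hw
    obtain ⟨k1, k2⟩ := hKKJ.1 n hn1
    refine stepA hASY hREG hVOL hPTS hG hE (hF w hw) hn1 ((hQ w).1.inter k1) ?_
      Set.inter_subset_right
    refine measure_mono_null (frontier_inter_subset _ _) ?_
    refine measure_union_null (measure_mono_null Set.inter_subset_left (hQ w).2)
      (measure_mono_null Set.inter_subset_right k2)
  have h2 := tendsto_finset_sum F h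
  rw [Finset.mul_sum]
  refine h2.congr fun X => ?_
  push_cast
  rw [Finset.sum_div]

/-- the sequence of masses exhausts -/
theorem mass_lim (hB : S_BETA) (hKKJ : S_KKJ) {Q : Set (ℝ × ℝ)} (hQ : MeasurableSet Q) :
    Tendsto (fun n : ℕ => mass (Q ∩ (KK n ×ˢ KK n))) atTop (𝓝 (mass Q)) :=
  hKKJ.2 Q hQ hB.1

theorem mass_univ_pos (hB : S_BETA) : 0 < mass Set.univ := by
  rw [mass_univ hB]
  have h1 : 0 < Real.Gamma (1 / 3) := Real.Gamma_pos_of_pos (by norm_num)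
  have h2 : 0 < Real.Gamma (2 / 3) := Real.Gamma_pos_of_pos (by norm_num)
  positivity

/-- the weights are summable -/
theorem rho_summable (hSC : S_SC) (hASY : S_ASY) (hREG : S_REG) (hVOL : S_VOL) (hPTS : S_PTS)
    (hKKJ : S_KKJ) (hB : S_BETA) (hC0 : S_C0) (hRAD : S_RAD) (hHT : S_HT)
    {σ τ : K →+* ℝ} (hG : Gold K σ τ) : Summable (fun w : Ideal (𝓞 K) => rho w) := by
  classical
  obtain ⟨hex, ⟨C, X₀, hC⟩, -⟩ := hSC K hG.rank hG.five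
  have hex' : ∀ X : ℝ, ∃ E : Finset (𝓞 K × 𝓞 K × 𝓞 K), 1 ≤ X → Reps X E := by
    intro X
    by_cases h : 1 ≤ X
    · obtain ⟨E, hE⟩ := hex X h
      exact ⟨E, fun _ => hE⟩
    · exact ⟨∅, fun h' => absurd h' h⟩
  choose E hE using hex'
  have hl := mass_lim hB hKKJ (Q := Set.univ) MeasurableSet.univ
  have hpos := mass_univ_pos hB
  obtain ⟨n, hn1, hn⟩ := ((eventually_ge_atTop 1).and (hl.eventually (lt_mem_nhds hpos))).exists
  obtain ⟨A, hA⟩ : ∃ A, A = mass (Set.univ ∩ (KK n ×ˢ KK n)) := ⟨_, rfl⟩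
  rw [← hA] at hn
  have hlc : 0 < lam * c0 K := mul_pos lam_pos (hC0 K).1
  refine summable_of_sum_le (c := C / (lam * c0 K * A)) (fun w => rho_nonneg w) fun F => ?_
  rw [le_div_iff₀ (mul_pos hlc hn)]
  obtain ⟨F', hF'⟩ : ∃ F', F' = F.filter fun w => w ≠ ⊥ := ⟨_, rfl⟩
  have e1 : ∑ w ∈ F, rho w = ∑ w ∈ F', rho w := by
    rw [hF', Finset.sum_filter]
    refine Finset.sum_congr rfl fun w _ => ?_
    by_cases h : w = ⊥
    · rw [h, rho_bot]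
      simp
    · simp [h]
  have hb := stepB hASY hREG hVOL hPTS hKKJ hG hE (Q := fun _ => Set.univ)
    (fun w => ⟨MeasurableSet.univ, by simp⟩) hn1 F' (fun w hw => by
      rw [hF', Finset.mem_filter] at hw
      exact hw.2)
  have hlim : lam * c0 K * ∑ w ∈ F', rho w * mass (Set.univ ∩ (KK n ×ˢ KK n)) ≤ C := by
    refine le_of_tendsto hb ?_
    filter_upwards [eventually_ge_atTop (max 1 X₀)] with X hX
    have hX1 : 1 ≤ X := (le_max_left _ _).trans hX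
    have hp : 0 < X ^ ((2 : ℝ) / 3) := Real.rpow_pos_of_pos (by linarith) _
    rw [div_le_iff₀ hp]
    refine le_trans ?_ (hC X ((le_max_right _ _).trans hX) (E X) (hE X hX1))
    obtain ⟨m, hm⟩ : ∃ m : ℕ, ∀ w ∈ F', Ideal.absNorm w < m := by
      refine ⟨F'.sup Ideal.absNorm + 1, fun w hw => ?_⟩
      exact Nat.lt_succ_of_le (Finset.le_sup (f := Ideal.absNorm) hw)
    have e2 : (∑ w ∈ F', {t : 𝓞 K × 𝓞 K × 𝓞 K | t ∈ E X ∧ Rep w t ∧
        shp σ τ t ∈ Set.univ ∩ (KK n ×ˢ KK n)}.ncard) =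
      (F'.biUnion fun w => (E X).filter fun t => Rep w t ∧
        shp σ τ t ∈ Set.univ ∩ (KK n ×ˢ KK n)).card := by
      rw [Finset.card_biUnion]
      · refine Finset.sum_congr rfl fun w _ => ?_
        rw [← Set.ncard_coe_finset]
        congr 1
        ext t
        rw [Set.mem_ofPred_eq, Finset.mem_coe, Finset.mem_filter]
      · intro w _ w' _ hne
        rw [Function.onFun, Finset.disjoint_left]
        intro t h1 h2
        rw [Finset.mem_filter] at h1 h2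
        exact hne ((hRAD K t ((hE X hX1).mem t h1.1).1).2.2.2.1 w w' h1.2.1 h2.2.1)
    rw [e2]
    have h3 : (F'.biUnion fun w => (E X).filter fun t => Rep w t ∧
        shp σ τ t ∈ Set.univ ∩ (KK n ×ˢ KK n)).card ≤ (E X).card := by
      refine Finset.card_le_card fun t ht => ?_
      rw [Finset.mem_biUnion] at ht
      obtain ⟨w, _, h⟩ := ht
      exact (Finset.mem_filter.1 h).1
    exact_mod_cast h3
  rw [← hA] at hlim
  rw [e1]
  rw [← Finset.sum_mul] at hlim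
  linarith

/-- **The master theorem** -/
theorem master (hSC : S_SC) (hASY : S_ASY) (hREG : S_REG) (hVOL : S_VOL) (hPTS : S_PTS)
    (hKKJ : S_KKJ) (hB : S_BETA) (hC0 : S_C0) (hRAD : S_RAD) (hHT : S_HT)
    {σ τ : K →+* ℝ} (hG : Gold K σ τ) {E : ℝ → Finset (𝓞 K × 𝓞 K × 𝓞 K)}
    (hE : ∀ X : ℝ, 1 ≤ X → Reps X (E X)) {Q : Ideal (𝓞 K) → Set (ℝ × ℝ)}
    (hQ : ∀ w, MeasurableSet (Q w) ∧ volume (frontier (Q w)) = 0) :
    Tendsto (fun X : ℝ => (({t : 𝓞 K × 𝓞 K × 𝓞 K | t ∈ E X ∧ ∃ w, Rep w t ∧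
        shp σ τ t ∈ Q w}.ncard : ℕ) : ℝ) / X ^ ((2 : ℝ) / 3)) atTop
      (𝓝 (lam * c0 K * ∑' w, rho w * mass (Q w))) := by
  classical
  have hsum := rho_summable hSC hASY hREG hVOL hPTS hKKJ hB hC0 hRAD hHT hG
  obtain ⟨-, -, C, ν, hν, hC⟩ := hSC K hG.rank hG.five
  -- the limits of the truncations
  obtain ⟨L, hL⟩ : ∃ L : ℕ → ℝ, L = fun n => lam * c0 K * ∑ w ∈ FF K n, rho w *
      mass (Q w ∩ (KK n ×ˢ KK n)) := ⟨_, rfl⟩
  have hLlim : Tendsto L atTop (𝓝 (lam * c0 K * ∑' w, rho w * mass (Q w))) := by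
    rw [hL]
    refine Tendsto.const_mul _ ?_
    have e : ∀ n : ℕ, ∑ w ∈ FF K n, rho w * mass (Q w ∩ (KK n ×ˢ KK n)) =
        ∑' w, if w ∈ FF K n then rho w * mass (Q w ∩ (KK n ×ˢ KK n)) else 0 := by
      intro n
      rw [tsum_eq_sum (s := FF K n)]
      · exact Finset.sum_congr rfl fun w hw => by rw [if_pos hw]
      · intro w hw
        rw [if_neg hw]
    simp only [e]
    refine tendsto_tsum_of_dominated_convergence (bound := fun w => rho w * mass Set.univ)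
      (hsum.mul_right _) ?_ ?_
    · intro w
      by_cases hw : w = ⊥
      · rw [hw, rho_bot]
        simp
      · have h1 := (mass_lim hB hKKJ (hQ w).1).const_mul (rho w)
        refine h1.congr' ?_
        filter_upwards [eventually_gt_atTop (Ideal.absNorm w)] with n hn
        rw [if_pos (mem_FF.2 ⟨hw, hn⟩)]
    · refine Eventually.of_forall fun n w => ?_
      have h0 : mass (Q w ∩ (KK n ×ˢ KK n)) ≤ mass Set.univ := mass_mono hB (Set.subset_univ _)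
      have h1 := mass_nonneg (Q w ∩ (KK (n : ℝ) ×ˢ KK (n : ℝ)))
      have h2 := rho_nonneg w
      split_ifs
      · rw [Real.norm_of_nonneg (mul_nonneg h2 h1)]
        exact mul_le_mul_of_nonneg_left h0 h2
      · rw [norm_zero]
        exact mul_nonneg h2 (h1.trans h0)
  rw [Metric.tendsto_atTop]
  intro ε hε
  have hz : Tendsto (fun n : ℕ => |C| * ((n : ℝ) / 2) ^ (-(1 / 4 : ℝ))) atTop (𝓝 0) := by
    have h1 : Tendsto (fun n : ℕ => ((n : ℝ) / 2) ^ (-(1 / 4 : ℝ))) atTop (𝓝 0) :=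
      (tendsto_rpow_neg_atTop (by norm_num : (0 : ℝ) < 1 / 4)).comp
        (tendsto_natCast_atTop_atTop.atTop_div_const (by norm_num))
    have h2 := h1.const_mul |C|
    rwa [mul_zero] at h2
  have hz' : Tendsto (fun X : ℝ => |C| * X ^ (-ν)) atTop (𝓝 0) := by
    have h2 := (tendsto_rpow_neg_atTop hν).const_mul |C|
    rwa [mul_zero] at h2
  have hε4 : 0 < ε / 4 := by linarith
  obtain ⟨n, hn2, hn3, hn4⟩ := ((eventually_ge_atTop 2).and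
    ((hz.eventually (gt_mem_nhds hε4)).and
      (hLlim.eventually (Metric.ball_mem_nhds _ hε4)))).exists
  have hn1 : 1 ≤ n := by omega
  have hb := stepB hASY hREG hVOL hPTS hKKJ hG hE hQ hn1 (FF K n) (fun w hw => (mem_FF.1 hw).1)
  have hb' := hb.eventually (Metric.ball_mem_nhds _ hε4)
  refine eventually_atTop.1 ?_
  filter_upwards [hb', hz'.eventually (gt_mem_nhds hε4), eventually_ge_atTop (1 : ℝ)]
    with X h1 h2 hX
  have hp : 0 < X ^ ((2 : ℝ) / 3) := Real.rpow_pos_of_pos (by linarith) _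
  obtain ⟨g1, g2⟩ := split_count hRAD hHT hG (hE X hX) Q hn1
  have hn2' : (2 : ℝ) ≤ n := by exact_mod_cast hn2
  have g3 := hC X ((n : ℝ) / 2) hX (by linarith) (E X) (hE X hX)
  obtain ⟨f, hf⟩ : ∃ f : ℝ, f = (({t : 𝓞 K × 𝓞 K × 𝓞 K | t ∈ E X ∧ ∃ w, Rep w t ∧
      shp σ τ t ∈ Q w}.ncard : ℕ) : ℝ) := ⟨_, rfl⟩
  obtain ⟨g, hg⟩ : ∃ g : ℝ, g = ((∑ w ∈ FF K n, {t : 𝓞 K × 𝓞 K × 𝓞 K | t ∈ E X ∧ Rep w t ∧
      shp σ τ t ∈ Q w ∩ (KK n ×ˢ KK n)}.ncard : ℕ) : ℝ) := ⟨_, rfl⟩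
  obtain ⟨r, hr⟩ : ∃ r : ℝ, r = (({t : 𝓞 K × 𝓞 K × 𝓞 K | t ∈ E X ∧
      (n : ℝ) / 2 * rad t ≤ height t ^ 3}.ncard : ℕ) : ℝ) := ⟨_, rfl⟩
  have k1 : g ≤ f := by
    rw [hf, hg]
    exact_mod_cast g1
  have k2 : f ≤ g + r := by
    rw [hf, hg, hr]
    exact_mod_cast g2
  rw [← hr] at g3
  rw [← hg] at h1
  rw [← hf]
  have k3 : r / X ^ ((2 : ℝ) / 3) ≤
      |C| * ((n : ℝ) / 2) ^ (-(1 / 4 : ℝ)) + |C| * X ^ (-ν) := by
    rw [div_le_iff₀ hp]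
    refine g3.trans ?_
    refine mul_le_mul_of_nonneg_right ?_ hp.le
    rw [← mul_add]
    refine mul_le_mul_of_nonneg_right (le_abs_self _) ?_
    have : 0 < ((n : ℝ) / 2) ^ (-(1 / 4 : ℝ)) := Real.rpow_pos_of_pos (by linarith) _
    have : 0 < X ^ (-ν) := Real.rpow_pos_of_pos (by linarith) _
    positivity
  have k4 : g / X ^ ((2 : ℝ) / 3) ≤ f / X ^ ((2 : ℝ) / 3) := div_le_div_of_nonneg_right k1 hp.le
  have k5 : f / X ^ ((2 : ℝ) / 3) ≤ g / X ^ ((2 : ℝ) / 3) + r / X ^ ((2 : ℝ) / 3) := by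
    rw [← add_div]
    exact div_le_div_of_nonneg_right k2 hp.le
  rw [hL] at hn4
  simp only [Metric.mem_ball, Real.dist_eq] at h1 hn4 ⊢
  rw [abs_lt] at h1 hn4 ⊢
  constructor <;> linarith [h1.1, h1.2, hn4.1, hn4.2]

end Pool.Agent.P8H82.JG
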