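import Mathlib
import Pool.Agent.P8H82.JG.Fin

set_option autoImplicit false

/-!
# Project JG: consequences of the master theorem
-/

namespace Pool.Agent.P8H82.JG

open NumberField IsDedekindDomain MeasureTheory Filter Topology

variable {K : Type} [Field K] [NumberField K]

theorem rho_top : rho (⊤ : Ideal (𝓞 K)) = 1 := by
  unfold rho
  have h : (∏ᶠ (P : HeightOneSpectrum (𝓞 K)) (_ : (⊤ : Ideal (𝓞 K)) ≤ P.asIdeal),
      (3 * (nP P - 1) / (nP P ^ 2 + nP P - 3))) = 1 := by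
    refine finprod_eq_one_of_forall_eq_one fun P => ?_
    have h : IsEmpty ((⊤ : Ideal (𝓞 K)) ≤ P.asIdeal) :=
      ⟨fun h => P.isPrime.ne_top (top_le_iff.1 h)⟩
    exact finprod_of_isEmpty _
  rw [h, Ideal.absNorm_top]
  simp

/-- the distribution function of `H / rad ^ (1 / 3)` (not normalised) -/
noncomputable def GG (K : Type) [Field K] [NumberField K] (L : ℝ) : ℝ :=
  lam * c0 K * ∑' w : Ideal (𝓞 K), rho w *
    mass {x : ℝ × ℝ | (Ideal.absNorm w : ℝ) * hh x.1 * hh x.2 ≤ L ^ 3}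

theorem lvl_eq {N s : ℝ} (hN : 0 < N) :
    {x : ℝ × ℝ | N * hh x.1 * hh x.2 ≤ s} = {x : ℝ × ℝ | hh x.1 * hh x.2 ≤ s / N} := by
  ext x
  rw [Set.mem_ofPred_eq, Set.mem_ofPred_eq, le_div_iff₀ hN]
  constructor <;> intro h <;> linarith

theorem lvl_ok (hLVL : S_LVL) (w : Ideal (𝓞 K)) (s : ℝ) :
    MeasurableSet {x : ℝ × ℝ | (Ideal.absNorm w : ℝ) * hh x.1 * hh x.2 ≤ s} ∧
    volume (frontier {x : ℝ × ℝ | (Ideal.absNorm w : ℝ) * hh x.1 * hh x.2 ≤ s}) = 0 := by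
  rcases Nat.eq_zero_or_pos (Ideal.absNorm w) with h | h
  · rw [h]
    by_cases hs : (0 : ℝ) ≤ s
    · simp [hs]
    · simp [hs]
  · have hN : (0 : ℝ) < Ideal.absNorm w := by exact_mod_cast h
    rw [lvl_eq hN]
    exact ⟨(hLVL _).1, (hLVL _).2.1⟩

theorem triple_height_pos {t : 𝓞 K × 𝓞 K × 𝓞 K} (h : Triple t) : 0 < height t := by
  unfold height
  refine Finset.prod_pos fun φ _ => lt_of_lt_of_le ?_ (le_max_left _ _)
  rw [norm_pos_iff]
  intro h1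
  have h2 := (map_eq_zero φ).1 h1
  apply h.ne
  rw [RingOfIntegers.coe_eq_zero_iff.1 h2]
  ring

theorem height_iff (hRAD : S_RAD) (hHT : S_HT) {σ τ : K →+* ℝ} (hG : Gold K σ τ) (L : ℝ)
    {t : 𝓞 K × 𝓞 K × 𝓞 K} (hT : Triple t) :
    height t ≤ L * rad t ^ ((1 : ℝ) / 3) ↔ ∃ w, Rep w t ∧
      shp σ τ t ∈ {x : ℝ × ℝ | (Ideal.absNorm w : ℝ) * hh x.1 * hh x.2 ≤ L ^ 3} := by
  obtain ⟨-, h1, ⟨w, -, hw⟩, huniq, -⟩ := hRAD K t hT
  have hr : 0 < rad t := by linarith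
  have e3 : (rad t ^ ((1 : ℝ) / 3)) ^ 3 = rad t := by
    rw [← Real.rpow_natCast, ← Real.rpow_mul hr.le]
    norm_num
  have h5 := Odd.pow_le_pow (n := 3) (a := height t) (b := L * rad t ^ ((1 : ℝ) / 3)) (by decide)
  rw [mul_pow, e3] at h5
  rw [← h5]
  constructor
  · intro h
    refine ⟨w, hw, ?_⟩
    rw [(hHT K σ τ hG t w hT hw).1] at h
    exact le_of_mul_le_mul_right h hr
  · rintro ⟨w', hw', h⟩
    rw [(hHT K σ τ hG t w' hT hw').1]
    exact mul_le_mul_of_nonneg_right h hr.le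

theorem mass_bound (hB : S_BETA) (Q : Set (ℝ × ℝ)) : mass Q ≤ mass Set.univ :=
  mass_mono hB (Set.subset_univ _)

theorem hh_nonneg (x : ℝ) : 0 ≤ hh x := by
  unfold hh
  positivity

/-- the limits of the masses of the level sets -/
theorem mass_lvl_lim (hB : S_BETA) (hLVL : S_LVL) (w : Ideal (𝓞 K)) :
    Tendsto (fun L : ℝ => mass {x : ℝ × ℝ | (Ideal.absNorm w : ℝ) * hh x.1 * hh x.2 ≤ L ^ 3})
      atTop (𝓝 (mass Set.univ)) := by
  have e : ∀ L : ℝ, mass {x : ℝ × ℝ | (Ideal.absNorm w : ℝ) * hh x.1 * hh x.2 ≤ L ^ 3} =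
      ∫ x : ℝ × ℝ, {x : ℝ × ℝ | (Ideal.absNorm w : ℝ) * hh x.1 * hh x.2 ≤ L ^ 3}.indicator
        (fun x => dens x.1 * dens x.2) x := fun L => by
    unfold mass
    rw [integral_indicator (lvl_ok hLVL w _).1]
  have e2 : mass Set.univ = ∫ x : ℝ × ℝ, dens x.1 * dens x.2 := by
    unfold mass
    rw [Measure.restrict_univ]
  simp only [e, e2]
  refine tendsto_integral_filter_of_dominated_convergence (fun x => dens x.1 * dens x.2) ?_ ?_
    (dens2_int hB) ?_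
  · exact Eventually.of_forall fun L =>
      ((dens2_int hB).indicator (lvl_ok hLVL w _).1).aestronglyMeasurable
  · refine Eventually.of_forall fun L => Eventually.of_forall fun x => ?_
    have h0 : 0 ≤ dens x.1 * dens x.2 := mul_nonneg (dens_nonneg _) (dens_nonneg _)
    refine (norm_indicator_le_norm_self _ _).trans ?_
    rw [Real.norm_of_nonneg h0]
  · refine Eventually.of_forall fun x => ?_
    refine tendsto_const_nhds.congr' ?_
    filter_upwards [eventually_ge_atTop (max 1 ((Ideal.absNorm w : ℝ) * hh x.1 * hh x.2))]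
      with L hL
    have h1 : 1 ≤ L := (le_max_left _ _).trans hL
    have h2 : (Ideal.absNorm w : ℝ) * hh x.1 * hh x.2 ≤ L := (le_max_right _ _).trans hL
    have h3 : L ≤ L ^ 3 := by nlinarith [sq_nonneg (L - 1), sq_nonneg L]
    rw [Set.indicator_of_mem]
    exact h2.trans h3

theorem GG_tendsto (hsum : Summable (fun w : Ideal (𝓞 K) => rho w)) (hB : S_BETA)
    (hLVL : S_LVL) : Tendsto (GG K) atTop
      (𝓝 (lam * c0 K * ((∑' w : Ideal (𝓞 K), rho w) * mass Set.univ))) := by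
  unfold GG
  refine Tendsto.const_mul _ ?_
  rw [← tsum_mul_right]
  refine tendsto_tsum_of_dominated_convergence (bound := fun w => rho w * mass Set.univ)
    (hsum.mul_right _) ?_ ?_
  · intro w
    exact (mass_lvl_lim hB hLVL w).const_mul _
  · refine Eventually.of_forall fun L w => ?_
    rw [Real.norm_of_nonneg (mul_nonneg (rho_nonneg _) (mass_nonneg _))]
    exact mul_le_mul_of_nonneg_left (mass_bound hB _) (rho_nonneg _)

theorem GG_lt (hsum : Summable (fun w : Ideal (𝓞 K) => rho w)) (hB : S_BETA)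
    (hLVL : S_LVL) (hC0 : S_C0) (L : ℝ) :
    GG K L < lam * c0 K * ((∑' w : Ideal (𝓞 K), rho w) * mass Set.univ) := by
  unfold GG
  refine mul_lt_mul_of_pos_left ?_ (mul_pos lam_pos (hC0 K).1)
  rw [← tsum_mul_right]
  refine Summable.tsum_lt_tsum (i := (⊤ : Ideal (𝓞 K))) ?_ ?_ ?_ (hsum.mul_right _)
  · intro w
    exact mul_le_mul_of_nonneg_left (mass_bound hB _) (rho_nonneg _)
  · rw [rho_top, one_mul, one_mul, Ideal.absNorm_top]
    simp only [Nat.cast_one, one_mul]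
    have h := (hLVL (L ^ 3)).2.2
    have hm := (hLVL (L ^ 3)).1
    have e : mass Set.univ = mass {x : ℝ × ℝ | hh x.1 * hh x.2 ≤ L ^ 3} +
        ∫ x in {x : ℝ × ℝ | L ^ 3 < hh x.1 * hh x.2}, dens x.1 * dens x.2 := by
      unfold mass
      rw [Measure.restrict_univ]
      have e3 : {x : ℝ × ℝ | L ^ 3 < hh x.1 * hh x.2} = {x : ℝ × ℝ | hh x.1 * hh x.2 ≤ L ^ 3}ᶜ := by
        ext x
        rw [Set.mem_compl_iff, Set.mem_ofPred_eq, Set.mem_ofPred_eq, not_le]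
      rw [e3]
      exact (integral_add_compl hm (dens2_int hB)).symm
    linarith
  · refine Summable.of_nonneg_of_le (fun w => mul_nonneg (rho_nonneg _) (mass_nonneg _))
      (fun w => mul_le_mul_of_nonneg_left (mass_bound hB _) (rho_nonneg _)) (hsum.mul_right _)

/-- the total constant -/
noncomputable def kap (K : Type) [Field K] [NumberField K] : ℝ :=
  9 / 5 * Real.log ((1 + √5) / 2) * (Real.Gamma (1 / 3) ^ 2 / Real.Gamma (2 / 3)) ^ 2 *
    (c0 K * ∑' w : Ideal (𝓞 K), rho w)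

theorem kap_eq (hB : S_BETA) :
    kap K = lam * c0 K * ((∑' w : Ideal (𝓞 K), rho w) * mass Set.univ) := by
  rw [mass_univ hB]
  unfold kap lam
  ring

/-- the final theorem, from the packages -/
theorem final (hSC : S_SC) (hASY : S_ASY) (hREG : S_REG) (hVOL : S_VOL) (hPTS : S_PTS)
    (hKKJ : S_KKJ) (hB : S_BETA) (hC0 : S_C0) (hRAD : S_RAD) (hHT : S_HT) (hLVL : S_LVL)
    (hEUL : S_EUL) (hEXI : S_EXI) (hK : Module.finrank ℚ K = 2) (h5 : ∃ s : K, s ^ 2 = 5) :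
    0 < c0 K ∧ 0 < kap K ∧
    HasProd (fun P : HeightOneSpectrum (𝓞 K) => 1 - 4 / nP P ^ 2 + 3 / nP P ^ 3) (c0 K) ∧
    HasProd (fun P : HeightOneSpectrum (𝓞 K) => (1 - 1 / nP P) * (1 + 1 / nP P +
      3 * nP P ^ (-(4 : ℝ) / 3) + 3 * nP P ^ (-(5 : ℝ) / 3))) (c0 K * ∑' w : Ideal (𝓞 K), rho w) ∧
    Summable (fun w : Ideal (𝓞 K) => rho w) ∧
    (∃ σ τ : K →+* ℝ, σ ≠ τ) ∧
    (∀ L : ℝ, GG K L < kap K) ∧ Tendsto (GG K) atTop (𝓝 (kap K)) ∧
    (∀ X : ℝ, 1 ≤ X → ∃ E : Finset (𝓞 K × 𝓞 K × 𝓞 K), Reps X E) ∧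
    ∀ E : ℝ → Finset (𝓞 K × 𝓞 K × 𝓞 K), (∀ X : ℝ, 1 ≤ X → Reps X (E X)) →
      Tendsto (fun X : ℝ => ((E X).card : ℝ) / X ^ ((2 : ℝ) / 3)) atTop (𝓝 (kap K)) ∧
      (∀ σ τ : K →+* ℝ, σ ≠ τ → ∀ Q : Ideal (𝓞 K) → Set (ℝ × ℝ),
        (∀ w, MeasurableSet (Q w) ∧ volume (frontier (Q w)) = 0) →
        Tendsto (fun X : ℝ => (({t : 𝓞 K × 𝓞 K × 𝓞 K | t ∈ E X ∧ ∃ w, Rep w t ∧
          shp σ τ t ∈ Q w}.ncard : ℕ) : ℝ) / X ^ ((2 : ℝ) / 3)) atTop
          (𝓝 (lam * c0 K * ∑' w, rho w * mass (Q w)))) ∧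
      ∀ L : ℝ, Tendsto (fun X : ℝ => (({t : 𝓞 K × 𝓞 K × 𝓞 K | t ∈ E X ∧
        height t ≤ L * rad t ^ ((1 : ℝ) / 3)}.ncard : ℕ) : ℝ) / X ^ ((2 : ℝ) / 3)) atTop
        (𝓝 (GG K L)) := by
  obtain ⟨σ, τ, hne⟩ := hEXI K hK h5
  have hG : Gold K σ τ := ⟨hK, h5, hne⟩
  have hsum := rho_summable hSC hASY hREG hVOL hPTS hKKJ hB hC0 hRAD hHT hG
  obtain ⟨hc, hp, -⟩ := hC0 K
  have hp' : HasProd (fun P : HeightOneSpectrum (𝓞 K) => 1 - 4 / nP P ^ 2 + 3 / nP P ^ 3)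
      (c0 K) := by
    have e : (fun P : HeightOneSpectrum (𝓞 K) => dl (nP P) 0) =
        fun P : HeightOneSpectrum (𝓞 K) => 1 - 4 / nP P ^ 2 + 3 / nP P ^ 3 := by
      funext P
      unfold dl
      rw [if_pos rfl]
    rw [← e]
    exact hp
  have hsp : 0 < ∑' w : Ideal (𝓞 K), rho w := by
    refine hsum.tsum_pos rho_nonneg ⊤ ?_
    rw [rho_top]
    exact one_pos
  have hk := kap_eq (K := K) hB
  have hkpos : 0 < kap K := by
    rw [hk]
    exact mul_pos (mul_pos lam_pos hc) (mul_pos hsp (mass_univ_pos hB))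
  refine ⟨hc, hkpos, hp', hEUL K hsum, hsum, ⟨σ, τ, hne⟩, fun L => ?_, ?_, (hSC K hK h5).1,
    fun E hE => ⟨?_, fun σ' τ' hne' Q hQ => ?_, fun L => ?_⟩⟩
  · rw [hk]
    exact GG_lt hsum hB hLVL hC0 L
  · rw [hk]
    exact GG_tendsto hsum hB hLVL
  · have h := master hSC hASY hREG hVOL hPTS hKKJ hB hC0 hRAD hHT hG hE
      (Q := fun _ => Set.univ) (fun w => ⟨MeasurableSet.univ, by simp⟩)
    rw [tsum_mul_right, ← hk] at h
    refine h.congr' ?_
    filter_upwards [eventually_ge_atTop (1 : ℝ)] with X hX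
    congr 2
    rw [← Set.ncard_coe_finset]
    congr 1
    ext t
    rw [Set.mem_ofPred_eq, Finset.mem_coe]
    constructor
    · exact fun h => h.1
    · intro h
      obtain ⟨w, -, hw⟩ := (hRAD K t ((hE X hX).mem t h).1).2.2.1
      exact ⟨h, w, hw, Set.mem_univ _⟩
  · exact master hSC hASY hREG hVOL hPTS hKKJ hB hC0 hRAD hHT ⟨hK, h5, hne'⟩ hE hQ
  · have h := master hSC hASY hREG hVOL hPTS hKKJ hB hC0 hRAD hHT hG hE
      (Q := fun w => {x : ℝ × ℝ | (Ideal.absNorm w : ℝ) * hh x.1 * hh x.2 ≤ L ^ 3})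
      (fun w => lvl_ok hLVL w _)
    unfold GG
    refine h.congr' ?_
    filter_upwards [eventually_ge_atTop (1 : ℝ)] with X hX
    congr 3
    ext t
    rw [Set.mem_ofPred_eq, Set.mem_ofPred_eq]
    constructor
    · rintro ⟨h1, h2⟩
      exact ⟨h1, (height_iff hRAD hHT hG L ((hE X hX).mem t h1).1).2 h2⟩
    · rintro ⟨h1, h2⟩
      exact ⟨h1, (height_iff hRAD hHT hG L ((hE X hX).mem t h1).1).1 h2⟩

end Pool.Agent.P8H82.JG
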