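import Mathlib
import Pool.Agent.P8H82.JG.Fin
import Pool.Agent.Results.MP_2a5a28_nt.SharpCount

set_option autoImplicit false

/-!
# Project JG: the input from the sharp count
-/

namespace Pool.Agent.P8H82.JG

open NumberField IsDedekindDomain MeasureTheory Filter Topology

theorem reps_iff {K : Type} [Field K] [NumberField K] (X : ℝ) (E : Finset (𝓞 K × 𝓞 K × 𝓞 K)) :
    Pool.Agent.Results.MP_2a5a28_nt.AlmostAllTriples.Reps X E ↔ Reps X E := by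
  constructor
  · intro h
    exact ⟨fun t ht => ⟨⟨(h.mem t ht).1.sum, (h.mem t ht).1.ne, (h.mem t ht).1.cop⟩,
      (h.mem t ht).2⟩, h.ineq, fun t ht hr => h.full t ⟨ht.sum, ht.ne, ht.cop⟩ hr⟩
  · intro h
    exact ⟨fun t ht => ⟨⟨(h.mem t ht).1.sum, (h.mem t ht).1.ne, (h.mem t ht).1.cop⟩,
      (h.mem t ht).2⟩, h.ineq, fun t ht hr => h.full t ⟨ht.sum, ht.ne, ht.cop⟩ hr⟩

theorem sc : S_SC := by
  intro K _ _ hK h5
  obtain ⟨h1, ⟨c₁, c₂, X₀, -, h2⟩, h3, -⟩ :=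
    Pool.Agent.Results.MP_2a5a28_nt.SharpCount.result K hK h5
  refine ⟨fun X hX => ?_, ⟨c₂, X₀, fun X hX E hE => ((h2 X hX E ((reps_iff X E).2 hE)).2)⟩, ?_⟩
  · obtain ⟨E, hE⟩ := h1 X hX
    exact ⟨E, (reps_iff X E).1 hE⟩
  · obtain ⟨C, ν, hν, h⟩ := h3 (1 / 4) (by norm_num) (by norm_num)
    exact ⟨C, ν, hν, fun X t hX ht E hE => h X t hX ht E ((reps_iff X E).2 hE)⟩

end Pool.Agent.P8H82.JG
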