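import Mathlib
import Pool.Agent.P8H82.JG.Fin2
import Pool.Agent.P8H82.JG.Sc
import Pool.Agent.P8H75.JG.EQ
import Pool.Agent.P8H75.JG.REG
import Pool.Agent.P8H75.JG.VOL
import Pool.Agent.P8H86.JG.Loc
import Pool.Agent.P8H86.JG.Lp
import Pool.Agent.P8H60.JG.Asy
import Pool.Agent.P8H60.JG.Eul
import Pool.Agent.P8H60.JG.Kkj
import Pool.Agent.P8H56.JG.Beta
import Pool.Agent.P8H56.JG.Ht
import Pool.Agent.P8H56.JG.Lvl
import Pool.Agent.P8H56.JG.Pts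
import Pool.Agent.P8H56.JG.Rad
import Pool.Agent.P8H52.JG.Asz
import Pool.Agent.P8H52.JG.Box
import Pool.Agent.P8H52.JG.Gold

set_option autoImplicit false

/-!
# Project JG: the main theorem
-/

namespace Pool.Agent.P8H82.JG

open NumberField IsDedekindDomain MeasureTheory Filter Topology

theorem main_thm {K : Type} [Field K] [NumberField K] (hK : Module.finrank ℚ K = 2)
    (h5 : ∃ s : K, s ^ 2 = 5) :
    0 < c0 K ∧ 0 < kap K ∧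
    HasProd (fun P : HeightOneSpectrum (𝓞 K) => 1 - 4 / nP P ^ 2 + 3 / nP P ^ 3) (c0 K) ∧
    HasProd (fun P : HeightOneSpectrum (𝓞 K) => (1 - 1 / nP P) * (1 + 1 / nP P +
      3 * nP P ^ (-(4 : ℝ) / 3) + 3 * nP P ^ (-(5 : ℝ) / 3))) (c0 K * ∑' w : Ideal (𝓞 K), rho w) ∧
    Summable (fun w : Ideal (𝓞 K) => rho w) ∧
    (∃ σ τ : K →+* ℝ, σ ≠ τ) ∧
    (∀ L : ℝ, GG K L < kap K) ∧ Tendsto (GG K) atTop (𝓝 (kap K)) ∧
    (∀ X : ℝ, 1 ≤ X → ∃ E : Finset (𝓞 K × 𝓞 K × 𝓞 K), Reps X E) ∧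
    ∀ E : ℝ → Finset (𝓞 K × 𝓞 K × 𝓞 K), (∀ X : ℝ, 1 ≤ X → Reps X (E X)) →
      Tendsto (fun X : ℝ => ((E X).card : ℝ) / X ^ ((2 : ℝ) / 3)) atTop (𝓝 (kap K)) ∧
      (∀ σ τ : K →+* ℝ, σ ≠ τ → ∀ Q : Ideal (𝓞 K) → Set (ℝ × ℝ),
        (∀ w, MeasurableSet (Q w) ∧ volume (frontier (Q w)) = 0) →
        Tendsto (fun X : ℝ => (({t : 𝓞 K × 𝓞 K × 𝓞 K | t ∈ E X ∧ ∃ w, Rep w t ∧
          shp σ τ t ∈ Q w}.ncard : ℕ) : ℝ) / X ^ ((2 : ℝ) / 3)) atTop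
          (𝓝 (lam * c0 K * ∑' w, rho w * mass (Q w)))) ∧
      ∀ L : ℝ, Tendsto (fun X : ℝ => (({t : 𝓞 K × 𝓞 K × 𝓞 K | t ∈ E X ∧
        height t ≤ L * rad t ^ ((1 : ℝ) / 3)}.ncard : ℕ) : ℝ) / X ^ ((2 : ℝ) / 3)) atTop
        (𝓝 (GG K L)) := by
  have hEXI : S_EXI := Pool.Agent.P8H52.JG.exi
  have hCPX : S_CPX := Pool.Agent.P8H52.JG.cpx
  have hNRM : S_NRM := Pool.Agent.P8H52.JG.nrm
  have hINT : S_INT := Pool.Agent.P8H52.JG.int_thm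
  have hCONE : S_CONE := Pool.Agent.P8H52.JG.cone
  have hBOX : S_BOX := Pool.Agent.P8H52.JG.box
  have hSM : S_SM := Pool.Agent.P8H60.JG.sm
  have hTL : S_TL := Pool.Agent.P8H52.JG.tl hSM
  have hC0 : S_C0 := Pool.Agent.P8H60.JG.c0_thm hSM
  have hEUL : S_EUL := Pool.Agent.P8H60.JG.eul hC0
  have hKKJ : S_KKJ := Pool.Agent.P8H60.JG.kkj
  have hEQ : S_EQ := Pool.Agent.P8H75.JG.eq_cosets
  have hREG : S_REG := Pool.Agent.P8H75.JG.reg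
  have hVOL : S_VOL := Pool.Agent.P8H75.JG.vol
  have hLOC : S_LOC := Pool.Agent.P8H86.JG.loc
  have hLP : S_LP := Pool.Agent.P8H86.JG.lp hEQ hINT
  have hASZ : S_ASZ := Pool.Agent.P8H52.JG.asz hLP hLOC
  have hASY : S_ASY := Pool.Agent.P8H60.JG.asy hBOX hASZ hTL hSM hC0
  have hREPC : S_REPC := Pool.Agent.P8H56.JG.repc
  have hRAD : S_RAD := Pool.Agent.P8H56.JG.rad_main
  have hPTS : S_PTS := Pool.Agent.P8H56.JG.pts hNRM hCONE hREPC hRAD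
  have hHT : S_HT := Pool.Agent.P8H56.JG.ht hNRM hCPX hRAD
  have hB : S_BETA := Pool.Agent.P8H56.JG.beta_main
  have hLVL : S_LVL := Pool.Agent.P8H56.JG.lvl hB
  exact final sc hASY hREG hVOL hPTS hKKJ hB hC0 hRAD hHT hLVL hEUL hEXI hK h5

end Pool.Agent.P8H82.JG
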